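import Pool.Agent.Helper80.KC.Goals

/-!
# Project KC (MP_eaa1a7_co), packet STAR (helper44)
-/

set_option autoImplicit false

open Module

namespace Pool.Agent.Helper44.KC

open Pool.Agent.Helper80.KC

variable {V : Type} [NormedAddCommGroup V] [InnerProductSpace ℝ V] [FiniteDimensional ℝ V]

/-- a subspace of dimension at most one is spanned by any unit vector in it -/
theorem line {W : Submodule ℝ V} {a : V} (hW : finrank ℝ W ≤ 1) (ha : a ∈ W) (hn : ‖a‖ = 1) :
    W = Submodule.span ℝ {a} := by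
  have h0 : a ≠ 0 := by
    rintro rfl
    rw [norm_zero] at hn
    exact zero_ne_one hn
  symm
  refine Submodule.eq_of_le_of_finrank_le ?_ ?_
  · rw [Submodule.span_le, Set.singleton_subset_iff]
    exact ha
  · rw [finrank_span_singleton h0]
    exact hW

/-- a three-dimensional space which meets `X` in dimension two -/
theorem glue {N X : Submodule ℝ V} {g : V} (hN : finrank ℝ N = 3) (hg : g ∈ N) (hX : g ∉ X)
    (h2 : 2 ≤ finrank ℝ (N ⊓ X : Submodule ℝ V)) : X ⊔ N = X ⊔ Submodule.span ℝ {g} := by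
  have h0 : g ≠ 0 := by
    rintro rfl
    exact hX X.zero_mem
  have hdis : (N ⊓ X) ⊓ Submodule.span ℝ {g} = ⊥ := by
    rw [eq_bot_iff]
    rintro x ⟨⟨-, hx⟩, hx'⟩
    obtain ⟨c, rfl⟩ := Submodule.mem_span_singleton.1 hx'
    by_cases hc : c = 0
    · rw [hc, zero_smul]
      exact Submodule.zero_mem _
    · exfalso
      apply hX
      have := X.smul_mem c⁻¹ hx
      rwa [smul_smul, inv_mul_cancel₀ hc, one_smul] at this
  have hsum := Submodule.finrank_sup_add_finrank_inf_eq (N ⊓ X) (Submodule.span ℝ {g})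
  rw [hdis, finrank_bot, finrank_span_singleton h0, add_zero] at hsum
  have hle : (N ⊓ X) ⊔ Submodule.span ℝ {g} ≤ N :=
    sup_le inf_le_left (by rw [Submodule.span_le, Set.singleton_subset_iff]; exact hg)
  have heq : (N ⊓ X) ⊔ Submodule.span ℝ {g} = N :=
    Submodule.eq_of_le_of_finrank_le hle (by omega)
  apply le_antisymm
  · refine sup_le le_sup_left ?_
    rw [← heq]
    exact sup_le (inf_le_right.trans le_sup_left) le_sup_right
  · refine sup_le le_sup_left ?_
    refine le_trans ?_ le_sup_right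
    rw [Submodule.span_le, Set.singleton_subset_iff]
    exact hg

/-- **STAR**. -/
theorem goalSTAR (hF : G_FOLD) : G_STAR := by
  intro k V _ _ _ N p f hc hn i j hij hfin
  have hline : N i ⊓ N j = Submodule.span ℝ {f i j} :=
    line hfin ⟨hc.fl i j hij, hc.fr i j hij⟩ (hc.fn i j hij)
  have hne : f i j ≠ 0 := by
    intro h
    have := hc.fn i j hij
    rw [h, norm_zero] at this
    exact zero_ne_one this
  have h1 : finrank ℝ (N i ⊓ N j : Submodule ℝ V) = 1 := by
    rw [hline, finrank_span_singleton hne]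
  have hX : finrank ℝ (N i ⊔ N j : Submodule ℝ V) = 5 := by
    have := Submodule.finrank_sup_add_finrank_inf_eq (N i) (N j)
    rw [h1, hc.dim i, hc.dim j] at this
    omega
  have hex : ∃ l, finrank ℝ (N l ⊓ (N i ⊔ N j) : Submodule ℝ V) ≤ 1 := by
    by_contra hcon
    push Not at hcon
    apply hn
    refine hF k V N p f (N i ⊔ N j) (fun l => (N i ⊔ N j) ⊔ N l) hc (fun l => le_sup_left)
      (fun l => le_sup_right) (fun l => ?_) (fun l m hlm => ?_)
    · have h2 := Submodule.finrank_sup_add_finrank_inf_eq (N i ⊔ N j) (N l)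
      rw [hX, hc.dim l, inf_comm] at h2
      have h3 := hcon l
      show finrank ℝ ((N i ⊔ N j) ⊔ N l : Submodule ℝ V) ≤ 6
      omega
    · by_cases h2 : f l m ∈ N i ⊔ N j
      · exact Or.inr h2
      · left
        show (N i ⊔ N j) ⊔ N l = (N i ⊔ N j) ⊔ N m
        rw [glue (hc.dim l) (hc.fl l m hlm) h2 (hcon l),
          glue (hc.dim m) (hc.fr l m hlm) h2 (hcon m)]
  obtain ⟨l, hl⟩ := hex
  have hli : l ≠ i := by
    rintro rfl
    rw [inf_eq_left.2 le_sup_left, hc.dim l] at hl
    omega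
  have hlj : l ≠ j := by
    rintro rfl
    rw [inf_eq_left.2 le_sup_right, hc.dim l] at hl
    omega
  refine ⟨l, hli, hlj, ?_⟩
  have e1 : N l ⊓ (N i ⊔ N j) = Submodule.span ℝ {f l i} :=
    line hl ⟨hc.fl l i hli, (le_sup_left : N i ≤ _) (hc.fr l i hli)⟩ (hc.fn l i hli)
  have e2 : N l ⊓ (N i ⊔ N j) = Submodule.span ℝ {f l j} :=
    line hl ⟨hc.fl l j hlj, (le_sup_right : N j ≤ _) (hc.fr l j hlj)⟩ (hc.fn l j hlj)
  have l1 : N l ⊓ (N i ⊔ N j) ≤ N i := by
    rw [e1, Submodule.span_le, Set.singleton_subset_iff]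
    exact hc.fr l i hli
  have l2 : N l ⊓ (N i ⊔ N j) ≤ N j := by
    rw [e2, Submodule.span_le, Set.singleton_subset_iff]
    exact hc.fr l j hlj
  rw [← hline]
  refine Submodule.eq_of_le_of_finrank_le (le_inf l1 l2) ?_
  rw [h1, e1, finrank_span_singleton]
  intro h
  have := hc.fn l i hli
  rw [h, norm_zero] at this
  exact zero_ne_one this

end Pool.Agent.Helper44.KC
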